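import Pool.Agent.helper81.PJ.Spec2

/-!
# pj:COREG  dense and sparse cells together, all moments
-/

set_option autoImplicit false

open Finset

namespace Pool.Agent.PJ

open Pool.Agent.PY2

/-- the points of `B` in cells with at least `E` points (`true`), the rest (`false`) -/
theorem COREG_split {p : ℕ} (B : Finset (ZMod p)) (L : ℕ) (E : ℝ) (hE : 0 ≤ E) :
    ∃ B₁ B₂ : Finset (ZMod p), B₁ ⊆ B ∧ B₂ ⊆ B ∧
      (∀ f : ZMod p → ℂ, ∑ b ∈ B, f b = ∑ b ∈ B₁, f b + ∑ b ∈ B₂, f b) ∧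
      (∀ j, cl B₁ L j = ∅ ∨ E ≤ (cl B₁ L j).card) ∧ ∀ j, ((cl B₂ L j).card : ℝ) ≤ E := by
  classical
  refine ⟨B.filter fun b => E ≤ (cl B L (b.val / L)).card,
    B.filter fun b => ¬ E ≤ (cl B L (b.val / L)).card, filter_subset _ _, filter_subset _ _,
    fun f => (sum_filter_add_sum_filter_not B _ f).symm, fun j => ?_, fun j => ?_⟩
  · by_cases h : E ≤ (cl B L j).card
    · right
      have : cl (B.filter fun b => E ≤ (cl B L (b.val / L)).card) L j = cl B L j := by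
        ext b
        unfold cl at h ⊢
        simp only [mem_filter]
        constructor
        · rintro ⟨⟨h1, -⟩, h2⟩
          exact ⟨h1, h2⟩
        · rintro ⟨h1, h2⟩
          exact ⟨⟨h1, by rw [h2]; exact h⟩, h2⟩
      rw [this]
      exact h
    · left
      rw [eq_empty_iff_forall_notMem]
      intro b hb
      unfold cl at hb h
      simp only [mem_filter] at hb
      obtain ⟨⟨h1, h2⟩, h3⟩ := hb
      rw [h3] at h2
      exact h h2
  · by_cases h : E ≤ (cl B L j).card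
    · have : cl (B.filter fun b => ¬ E ≤ (cl B L (b.val / L)).card) L j = ∅ := by
        rw [eq_empty_iff_forall_notMem]
        intro b hb
        unfold cl at hb h
        simp only [mem_filter] at hb
        obtain ⟨⟨h1, h2⟩, h3⟩ := hb
        rw [h3] at h2
        exact h2 h
      rw [this]
      simpa using hE
    · have h1 : cl (B.filter fun b => ¬ E ≤ (cl B L (b.val / L)).card) L j ⊆ cl B L j := by
        intro b hb
        unfold cl at hb ⊢
        simp only [mem_filter] at hb ⊢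
        exact ⟨hb.1.1, hb.2⟩
      have h2 : ((cl (B.filter fun b => ¬ E ≤ (cl B L (b.val / L)).card) L j).card : ℝ) ≤
          (cl B L j).card := by exact_mod_cast card_le_card h1
      linarith [not_le.1 h]

/-- for large `p` the power `p ^ c` is at least `K` -/
theorem COREG_large (c K : ℝ) (hc : 0 < c) : ∃ p₀ : ℕ, ∀ p : ℕ, p₀ < p → K ≤ (p : ℝ) ^ c := by
  have h := (tendsto_rpow_atTop hc).comp tendsto_natCast_atTop_atTop
  obtain ⟨p₀, hp₀⟩ := Filter.eventually_atTop.1 (h.eventually_ge_atTop K)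
  exact ⟨p₀, fun p hp => hp₀ p hp.le⟩

theorem COREG (hDENG : DENG_stmt) (hSPAG : SPAG_stmt) : COREG_stmt := by
  intro k l hk hl ε hε
  obtain ⟨κ, hκ⟩ : ∃ κ : ℝ, κ = ε / (4 * ((k : ℝ) + l + 2)) := ⟨_, rfl⟩
  have hden : (0 : ℝ) < 4 * ((k : ℝ) + l + 2) := by positivity
  have hκ0 : 0 < κ := by rw [hκ]; positivity
  have hk0 : (0 : ℝ) ≤ k := Nat.cast_nonneg k
  have hl0 : (0 : ℝ) ≤ l := Nat.cast_nonneg l
  have hκm : ∀ m : ℝ, m ≤ 4 * ((k : ℝ) + l + 2) → m * κ ≤ ε := by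
    intro m hm
    calc m * κ ≤ 4 * ((k : ℝ) + l + 2) * κ := mul_le_mul_of_nonneg_right hm hκ0.le
      _ = ε := by
        rw [hκ]
        field_simp
  obtain ⟨p₁, hp₁⟩ := hDENG k hk κ hκ0
  obtain ⟨p₂, hp₂⟩ := hSPAG l hl κ hκ0
  obtain ⟨p₃, hp₃⟩ := COREG_large (κ / 4) 20 (by positivity)
  obtain ⟨p₄, hp₄⟩ := COREG_large ε 72 hε
  refine ⟨κ / 4, by positivity, p₁ + p₂ + p₃ + p₄, ?_⟩
  intro p _ hp N V A B hAN hV1 hVN hVp hNl hNu c1 c2 c4 c5 χ hχ β hβ
  have hp1 : (1 : ℝ) ≤ p := by exact_mod_cast (Fact.out : p.Prime).one_le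
  have hp0 : (0 : ℝ) < p := by linarith
  -- trivial cases
  rcases A.eq_empty_or_nonempty with hA | hA
  · rw [hA]
    simp
  rcases B.eq_empty_or_nonempty with hB | hB
  · rw [hB]
    simp
  have hX : (0 : ℝ) < A.card := by exact_mod_cast hA.card_pos
  have hY : (0 : ℝ) < B.card := by exact_mod_cast hB.card_pos
  -- the number of cells
  obtain ⟨s, hs1, hs2⟩ := exists_nat_pow_near hV1 (one_lt_two (α := ℝ))
  have hs2' : V ≤ 2 * (2 : ℝ) ^ s := by
    rw [pow_succ] at hs2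
    linarith
  have h2N : 2 ^ s ≤ N := by
    have : ((2 ^ s : ℕ) : ℝ) ≤ N := by
      push_cast
      linarith
    exact_mod_cast this
  have h2pos : 0 < 2 ^ s := by positivity
  obtain ⟨L, hL⟩ : ∃ L : ℕ, L = N / 2 ^ s := ⟨_, rfl⟩
  have hL1 : 1 ≤ L := by
    rw [hL]
    exact (Nat.one_le_div_iff h2pos).2 h2N
  have hL2 : 2 ^ s * L ≤ N := by
    rw [hL]
    exact Nat.mul_div_le N (2 ^ s)
  have hL3 : N ≤ 2 * (2 ^ s * L) := by
    have h1 : N < 2 ^ s * (L + 1) := by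
      rw [hL]
      exact Nat.lt_mul_div_succ N h2pos
    have h2 : 2 ^ s ≤ 2 ^ s * L := Nat.le_mul_of_pos_right _ hL1
    rw [mul_add, mul_one] at h1
    omega
  have h72 : 72 * N ≤ p := by
    have h1 : (72 : ℝ) ≤ (p : ℝ) ^ ε := hp₄ p (by omega)
    have h2 : (72 : ℝ) * N ≤ p := by
      calc (72 : ℝ) * N ≤ (p : ℝ) ^ ε * (p : ℝ) ^ (1 - ε) :=
            mul_le_mul h1 hNu (Nat.cast_nonneg N) (by positivity)
        _ = p := by
            rw [← Real.rpow_add hp0]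
            simp
    exact_mod_cast h2
  have h2k : (2 ^ s) ^ (2 * k) ≤ p := by
    have h1 : ((2 : ℝ) ^ s) ^ (2 * k) ≤ p := (pow_le_pow_left₀ (by positivity) hs1 _).trans hVp
    exact_mod_cast h1
  have hpow : ∀ a b : ℝ, a ≤ b → (p : ℝ) ^ a ≤ (p : ℝ) ^ b := fun a b hab =>
    Real.rpow_le_rpow_of_exponent_le hp1 hab
  have hN0 : (0 : ℝ) ≤ N := Nat.cast_nonneg N
  obtain ⟨E, hE⟩ : ∃ E : ℝ, E = N * (p : ℝ) ^ κ / A.card := ⟨_, rfl⟩
  have hE0 : 0 ≤ E := by rw [hE]; positivity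
  obtain ⟨B₁, B₂, hB₁, hB₂, hsplit, hcl₁, hcl₂⟩ := COREG_split B L E hE0
  have hB₁c : (B₁.card : ℝ) ≤ B.card := by exact_mod_cast card_le_card hB₁
  have hB₂c : (B₂.card : ℝ) ≤ B.card := by exact_mod_cast card_le_card hB₂
  have d1 := hp₁ p (by omega) N L s A.card B.card A B₁ hAN hX hY (by linarith) (by linarith) hL1
    hL2 hL3 h72 h2k
    (by
      calc (N : ℝ) ^ 2 * (p : ℝ) ^ (4 * κ) ≤ (N : ℝ) ^ 2 * (p : ℝ) ^ ε :=
            mul_le_mul_of_nonneg_left (hpow _ _ (hκm 4 (by linarith))) (by positivity)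
        _ ≤ V * (A.card : ℝ) ^ 2 := c1
        _ ≤ 2 * (2 : ℝ) ^ s * (A.card : ℝ) ^ 2 :=
            mul_le_mul_of_nonneg_right hs2' (by positivity))
    (by
      calc (N : ℝ) ^ (2 * k - 1) * (p : ℝ) ^ (1 + (2 * k + 2) * κ)
          ≤ (N : ℝ) ^ (2 * k - 1) * (p : ℝ) ^ (1 + ε) :=
            mul_le_mul_of_nonneg_left (hpow _ _ (by linarith [hκm (2 * k + 2) (by linarith)]))
              (by positivity)
        _ ≤ V ^ (k - 1) * ((A.card : ℝ) ^ (2 * k) * B.card) := c2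
        _ ≤ (2 * (2 : ℝ) ^ s) ^ (k - 1) * ((A.card : ℝ) ^ (2 * k) * B.card) :=
            mul_le_mul_of_nonneg_right (pow_le_pow_left₀ (by linarith) hs2' _) (by positivity))
    (by rw [← hE]; exact hcl₁) χ hχ β hβ
  have d2 := hp₂ p (by omega) N L s A.card B.card A B₂ hAN hX hY (by linarith) (by linarith) hL1
    hL2 hL3 h72
    ((hpow _ _ (by linarith [hκm 1 (by linarith)])).trans hNl)
    (by
      calc (N : ℝ) ^ (2 * l) * (p : ℝ) ^ ((2 * l + 3) * κ)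
          ≤ (N : ℝ) ^ (2 * l) * (p : ℝ) ^ ε :=
            mul_le_mul_of_nonneg_left (hpow _ _ (hκm (2 * l + 3) (by linarith))) (by positivity)
        _ ≤ (A.card : ℝ) ^ (2 * l) * B.card := c4)
    (by
      calc (2 : ℝ) ^ s * (N : ℝ) ^ (2 * l - 1) * (p : ℝ) ^ (1 + 1 / (l : ℝ) + (2 * l + 4) * κ)
          ≤ V * (N : ℝ) ^ (2 * l - 1) * (p : ℝ) ^ (1 + 1 / (l : ℝ) + ε) :=
            mul_le_mul (mul_le_mul_of_nonneg_right hs1 (by positivity))
              (hpow _ _ (by linarith [hκm (2 * l + 4) (by linarith)])) (by positivity)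
              (by positivity)
        _ ≤ (A.card : ℝ) ^ (2 * l + 1) * (B.card : ℝ) ^ 2 := c5)
    (by rw [← hE]; exact hcl₂) χ hχ β hβ
  have hsum : ∑ n ∈ A, ‖∑ b ∈ B, β b * χ ((n : ZMod p) + b)‖ ≤
      ∑ n ∈ A, ‖∑ b ∈ B₁, β b * χ ((n : ZMod p) + b)‖ +
        ∑ n ∈ A, ‖∑ b ∈ B₂, β b * χ ((n : ZMod p) + b)‖ := by
    rw [← sum_add_distrib]
    refine sum_le_sum fun n _ => ?_
    rw [hsplit]
    exact norm_add_le _ _
  have h20 : 20 * (p : ℝ) ^ (-(κ / 2)) ≤ (p : ℝ) ^ (-(κ / 4)) := by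
    have h1 : (20 : ℝ) ≤ (p : ℝ) ^ (κ / 4) := hp₃ p (by omega)
    calc 20 * (p : ℝ) ^ (-(κ / 2)) ≤ (p : ℝ) ^ (κ / 4) * (p : ℝ) ^ (-(κ / 2)) :=
          mul_le_mul_of_nonneg_right h1 (by positivity)
      _ = (p : ℝ) ^ (-(κ / 4)) := by
          rw [← Real.rpow_add hp0]
          congr 1
          ring
  calc ∑ n ∈ A, ‖∑ b ∈ B, β b * χ ((n : ZMod p) + b)‖
      ≤ 10 * (p : ℝ) ^ (-(κ / 2)) * (A.card * B.card) +
        10 * (p : ℝ) ^ (-(κ / 2)) * (A.card * B.card) := hsum.trans (add_le_add d1 d2)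
    _ = 20 * (p : ℝ) ^ (-(κ / 2)) * (A.card * B.card) := by ring
    _ ≤ (p : ℝ) ^ (-(κ / 4)) * (A.card * B.card) :=
        mul_le_mul_of_nonneg_right h20 (by positivity)

end Pool.Agent.PJ
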