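import Pool.Agent.helper81.PJ.Spec

/-!
# pj:SH1  exact shifts along the difference of the pair
-/

set_option autoImplicit false

open Finset

namespace Pool.Agent.PJ

open Pool.Agent.PY2

theorem SH1_unit {p : ℕ} [Fact p.Prime] (χ : MulChar (ZMod p) ℂ) {x : ZMod p} (hx : x ≠ 0) :
    χ x * (starRingEnd ℂ) (χ x) = 1 := by
  have h : ‖χ x‖ = 1 := by
    have := DirichletCharacter.unit_norm_eq_one (n := p) χ (Units.mk0 x hx)
    simpa using this
  rw [Complex.mul_conj, Complex.normSq_eq_norm_sq, h]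
  simp

theorem SH1_term {p : ℕ} [Fact p.Prime] (χ : MulChar (ZMod p) ℂ) (h : ℕ)
    (hh : (h : ZMod p) ≠ 0) (b : ZMod p) (i v : ℕ) :
    χ ((i : ZMod p) + b) * (starRingEnd ℂ) (χ ((i : ZMod p) + (b + (h : ZMod p)))) =
      c1 χ ((((2 * v * h + i : ℕ) : ZMod p) + b) / (h : ZMod p)) v := by
  have e1 : (i : ZMod p) + b = (h : ZMod p) *
      ((((2 * v * h + i : ℕ) : ZMod p) + b) / (h : ZMod p) - ((2 * v : ℕ) : ZMod p)) := by
    rw [mul_sub, mul_div_cancel₀ _ hh]
    push_cast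
    ring
  have e2 : (i : ZMod p) + (b + (h : ZMod p)) = (h : ZMod p) *
      ((((2 * v * h + i : ℕ) : ZMod p) + b) / (h : ZMod p) + 1 - ((2 * v : ℕ) : ZMod p)) := by
    rw [mul_sub, mul_add, mul_div_cancel₀ _ hh]
    push_cast
    ring
  rw [e2, e1, map_mul, map_mul, map_mul]
  unfold c1
  have := SH1_unit χ hh
  linear_combination (χ ((((2 * v * h + i : ℕ) : ZMod p) + b) / (h : ZMod p) -
      ((2 * v : ℕ) : ZMod p)) * (starRingEnd ℂ) (χ ((((2 * v * h + i : ℕ) : ZMod p) + b) /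
      (h : ZMod p) + 1 - ((2 * v : ℕ) : ZMod p)))) * this

/-- Exact shifts. -/
theorem SH1 (hMAX : MAX_stmt) : SH1_stmt := by
  intro p _ χ k N n h b hk h1 hp hN
  have hh : (h : ZMod p) ≠ 0 := by
    intro h0
    rw [ZMod.natCast_eq_zero_iff] at h0
    exact absurd (Nat.le_of_dvd (by omega) h0) (by omega)
  have key : ∀ v ∈ range (2 ^ n), Gc χ N b (b + (h : ZMod p)) = ∑ m ∈ range (3 * N),
      if 2 * v * h ≤ m ∧ m < N + 2 * v * h then
        c1 χ (((m : ZMod p) + b) / (h : ZMod p)) v else 0 := by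
    intro v hv
    have hv' : v * h ≤ N := by
      have h2 : v ≤ 2 ^ n := (mem_range.1 hv).le
      exact (Nat.mul_le_mul_right h h2).trans hN
    have hvv : 2 * v * h ≤ 2 * N := by
      rw [mul_assoc]
      omega
    rw [← sum_filter]
    have hset : (range (3 * N)).filter (fun m => 2 * v * h ≤ m ∧ m < N + 2 * v * h) =
        Ico (2 * v * h) (N + 2 * v * h) := by
      ext m
      rw [mem_filter, mem_range, mem_Ico]
      constructor
      · exact fun hm => hm.2
      · exact fun hm => ⟨by omega, hm⟩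
    rw [hset, sum_Ico_eq_sum_range, Nat.add_sub_cancel]
    unfold Gc
    exact sum_congr rfl fun i _ => SH1_term χ h hh b i v
  have hsum : ((2 : ℂ) ^ n) * Gc χ N b (b + (h : ZMod p)) = ∑ m ∈ range (3 * N),
      ∑ v ∈ (range (2 ^ n)).filter (fun v => 2 * v * h ≤ m ∧ m < N + 2 * v * h),
        c1 χ (((m : ZMod p) + b) / (h : ZMod p)) v := by
    have e : ((2 : ℂ) ^ n) * Gc χ N b (b + (h : ZMod p)) =
        ∑ v ∈ range (2 ^ n), Gc χ N b (b + (h : ZMod p)) := by
      rw [sum_const, card_range, nsmul_eq_mul]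
      push_cast
      rfl
    rw [e, sum_congr rfl key, sum_comm]
    exact sum_congr rfl fun m _ => (sum_filter _ _).symm
  have hnorm : (2 : ℝ) ^ n * ‖Gc χ N b (b + (h : ZMod p))‖ =
      ‖((2 : ℂ) ^ n) * Gc χ N b (b + (h : ZMod p))‖ := by
    rw [norm_mul, norm_pow]
    norm_num
  rw [hnorm, hsum]
  refine (norm_sum_le _ _).trans (sum_le_sum fun m _ => ?_)
  refine (hMAX k n _ hk).2 _ (filter_subset _ _) ?_
  intro u hu w hw v huv hvw
  rw [mem_filter, mem_range] at hu hw ⊢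
  have a1 : 2 * u * h ≤ 2 * v * h := Nat.mul_le_mul_right h (by omega)
  have a2 : 2 * v * h ≤ 2 * w * h := Nat.mul_le_mul_right h (by omega)
  exact ⟨by omega, by omega, by omega⟩

end Pool.Agent.PJ
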